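import Mathlib

namespace Pool.Agent.Results.MP_8c4df5_an.Counter

open Set

/-- differentiable, μ-strongly convex, derivative L-Lipschitz -/
def InF (μ L : ℝ) (f : ℝ → ℝ) : Prop :=
  Differentiable ℝ f ∧ StrongConvexOn univ μ f ∧ ∀ x y, |deriv f x - deriv f y| ≤ L * |x - y|

/-- a K-cycle of heavy-ball, written as a K-periodic nonconstant sequence -/
def Cyc (K : ℕ) (γ β : ℝ) (f : ℝ → ℝ) (x : ℕ → ℝ) : Prop :=
  (∀ i, x (i + K) = x i) ∧ (∃ i j, x i ≠ x j) ∧
    ∀ i, x (i + 2) = x (i + 1) - γ * deriv f (x (i + 1)) + β * (x (i + 1) - x i)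

/-- the rank function -/
def rho (K j : ℕ) : ℕ := if j = 0 then 0 else if j ≤ K / 2 then 2 * j - 1 else 2 * (K - j)

/-- the pattern -/
def Pat (K : ℕ) (x : ℕ → ℝ) : Prop := ∀ i < K, ∀ j < K, rho K i < rho K j → x i ≤ x j

theorem low {μ L : ℝ} {f : ℝ → ℝ} (h : InF μ L f) {x y : ℝ} (hxy : x ≤ y) :
    μ * (y - x) ≤ deriv f y - deriv f x ∧ deriv f y - deriv f x ≤ L * (y - x) := by
  obtain ⟨h1, h2, h3⟩ := h
  constructor
  · rw [strongConvexOn_iff_convex] at h2
    have e : (fun x : ℝ => f x - μ / 2 * ‖x‖ ^ 2) = fun x => f x - μ / 2 * x ^ 2 := by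
      ext x; simp
    rw [e] at h2
    have d : ∀ x : ℝ, HasDerivAt (fun x : ℝ => f x - μ / 2 * x ^ 2) (deriv f x - μ * x) x :=
      fun x => ((h1 x).hasDerivAt.sub ((hasDerivAt_pow 2 x).const_mul (μ / 2))).congr_deriv
        (by simp; ring)
    have := h2.monotoneOn_deriv (fun x _ => (d x).differentiableAt) (mem_univ x) (mem_univ y) hxy
    rw [(d x).deriv, (d y).deriv] at this
    linarith
  · have := h3 y x
    rw [abs_of_nonneg (sub_nonneg.2 hxy)] at this
    exact (le_abs_self _).trans this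

theorem mk {μ L : ℝ} (hμ : 0 ≤ μ) {φ : ℝ → ℝ} (hc : Continuous φ)
    (h : ∀ x y, x ≤ y → μ * (y - x) ≤ φ y - φ x ∧ φ y - φ x ≤ L * (y - x)) :
    ∃ f, InF μ L f ∧ deriv f = φ := by
  have d : ∀ x, HasDerivAt (fun x => ∫ t in (0 : ℝ)..x, φ t) (φ x) x := fun x =>
    (hc.integral_hasStrictDerivAt 0 x).hasDerivAt
  have e : deriv (fun x => ∫ t in (0 : ℝ)..x, φ t) = φ := funext fun x => (d x).deriv
  refine ⟨_, ⟨fun x => (d x).differentiableAt, ?_, fun x y => ?_⟩, e⟩
  · rw [strongConvexOn_iff_convex]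
    have e2 : (fun x : ℝ => (∫ t in (0 : ℝ)..x, φ t) - μ / 2 * ‖x‖ ^ 2) =
        fun x => (∫ t in (0 : ℝ)..x, φ t) - μ / 2 * x ^ 2 := by
      ext x; simp
    rw [e2]
    have d2 : ∀ x : ℝ, HasDerivAt (fun x : ℝ => (∫ t in (0 : ℝ)..x, φ t) - μ / 2 * x ^ 2)
        (φ x - μ * x) x :=
      fun x => ((d x).sub ((hasDerivAt_pow 2 x).const_mul (μ / 2))).congr_deriv (by simp; ring)
    refine Monotone.convexOn_univ_of_deriv (fun x => (d2 x).differentiableAt) fun x y hxy => ?_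
    rw [(d2 x).deriv, (d2 y).deriv]
    linarith [(h x y hxy).1]
  · rw [e]
    rcases le_total x y with hxy | hxy
    · have := h x y hxy
      have h0 : 0 ≤ μ * (y - x) := mul_nonneg hμ (sub_nonneg.2 hxy)
      rw [abs_sub_comm, abs_sub_comm x, abs_of_nonneg (by linarith), abs_of_nonneg (by linarith)]
      exact this.2
    · have := h y x hxy
      have h0 : 0 ≤ μ * (x - y) := mul_nonneg hμ (sub_nonneg.2 hxy)
      rw [abs_of_nonneg (by linarith), abs_of_nonneg (by linarith)]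
      exact this.2

noncomputable def φ (x : ℝ) : ℝ :=
  x - 158 / 7 + 3 / 2 * min x 6 + 101 / 70 * (min (max x 7) 17 - 7)

def c (i : ℕ) : ℝ := ![0, 18, 6, 7, 17] (⟨i % 5, Nat.mod_lt _ (by norm_num)⟩ : Fin 5)

theorem result : ∃ (K : ℕ) (μ L γ β : ℝ), 3 ≤ K ∧ 0 < μ ∧ μ < L ∧ 0 < γ ∧ 0 < β ∧ β < 1 ∧
    γ * L < 2 * (1 + β) ∧
    (∃ f x, InF μ L f ∧ Cyc K γ β f x ∧ ∀ i < K, ∀ j < K, x i = x j → i = j) ∧
    ¬ ∃ f x, InF μ L f ∧ Cyc K γ β f x ∧ Pat K x := by
  refine ⟨5, 1, 5 / 2, 7 / 5, 4 / 5, by norm_num, by norm_num, by norm_num, by norm_num,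
    by norm_num, by norm_num, by norm_num, ?_, ?_⟩
  · obtain ⟨f, hf, hd⟩ := mk (μ := 1) (L := 5 / 2) (φ := φ) zero_le_one
      (by unfold φ; fun_prop) (by
        intro x y hxy
        simp only [φ, min_def, max_def]
        split_ifs <;> constructor <;> linarith)
    refine ⟨f, c, hf, ⟨fun i => by simp [c], ⟨0, 1, by simp [c]⟩, fun i => ?_⟩, ?_⟩
    · rw [hd]
      have : ∀ a b, c (5 * a + b) = c b := fun a b => by simp [c]
      rw [← Nat.div_add_mod i 5, add_assoc, add_assoc, this, this, this]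
      have h5 : i % 5 < 5 := Nat.mod_lt _ (by norm_num)
      generalize i % 5 = r at h5
      interval_cases r <;> norm_num [c, φ, min_def, max_def]
    · intro i hi j hj
      interval_cases i <;> interval_cases j <;> simp [c]
  · rintro ⟨f, x, hf, ⟨h1, ⟨i, j, hij⟩, h2⟩, h3⟩
    have p1 := h3 0 (by norm_num) 1 (by norm_num) (by decide)
    have p2 := h3 1 (by norm_num) 4 (by norm_num) (by decide)
    have p3 := h3 4 (by norm_num) 2 (by norm_num) (by decide)
    have p4 := h3 2 (by norm_num) 3 (by norm_num) (by decide)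
    have q1 := low hf p1
    have q2 := low hf p2
    have q3 := low hf p3
    have q4 := low hf p4
    have e0 := h2 0
    have e1 := h2 1
    have e2 := h2 2
    have e3 := h2 3
    have e4 := h2 4
    have f0 := h1 0
    have f1 := h1 1
    norm_num at e0 e1 e2 e3 e4 f0 f1
    rw [f0] at e3 e4
    rw [f1] at e4
    have z : x 3 ≤ x 0 := by
      linarith [q1.1, q1.2, q2.1, q2.2, q3.1, q3.2, q4.1, q4.2]
    have all : ∀ n, x n = x 0 := by
      intro n
      induction n using Nat.strong_induction_on with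
      | _ n ih =>
        by_cases hn : n < 5
        · interval_cases n <;> linarith
        · obtain ⟨m, rfl⟩ : ∃ m, n = m + 5 := ⟨n - 5, by omega⟩
          rw [h1, ih m (by omega)]
    exact hij (by rw [all i, all j])

end Pool.Agent.Results.MP_8c4df5_an.Counter
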